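import Pool.Agent.H81.Q1.Exploration

set_option autoImplicit false
open Set Topology MeasureTheory Filter ProbabilityTheory
open scoped unitInterval NNReal

/-! # Chordal Schramm-Loewner evolution: definitions, and the statement of Q1 with the
identification of the limit

* `NotSwallowed W t z` : `t < τ_z` for the Loewner equation with driving function `W`.
* `IsTrace W η` : the curve `η` generates the hulls of the Loewner chain driven by `W`.
* `IsChart D a b φ` : `φ` is a conformal map from the upper half plane onto `D`, extended to the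
  boundary, with `0 ↦ a`, `∞ ↦ b`.
* `IsSLE κ D a b μ` : `μ` is the law of chordal `SLE_κ` in `(D, a, b)`.
* `Q1SLE` : convergence of the exploration paths to chordal `SLE₆`. -/

namespace Pool.Agent.H82.Q1

open Pool.Agent.H81.Q1

/-- The open upper half plane. -/
def HH : Set ℂ := {z | 0 < z.im}

/-- The closed upper half plane. -/
def cHH : Set ℂ := {z | 0 ≤ z.im}

/-- `t < τ_z`: the solution of `∂_s g_s(z) = 2 / (g_s(z) - W_s)`, `g_0(z) = z` exists on `[0,t]` and
`g_s(z) - W_s` does not vanish on `[0,t]`. -/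
def NotSwallowed (W : ℝ → ℝ) (t : ℝ) (z : ℂ) : Prop :=
  ∃ g : ℝ → ℂ, g 0 = z ∧ ∀ s ∈ Icc 0 t,
    g s ≠ W s ∧ HasDerivWithinAt g (2 / (g s - W s)) (Icc 0 t) s

/-- The union of the unbounded components of `ℍ \ K` (there is exactly one if `K` is compact). -/
def outerDom (K : Set ℂ) : Set ℂ :=
  {z | z ∈ HH \ K ∧ ¬ Bornology.IsBounded (connectedComponentIn (HH \ K) z)}

/-- The Loewner chain driven by `W` is **generated by the curve** `η : [0,∞) → closure ℍ`, its
trace: `η` is continuous, `η 0 = W 0 = 0` and for every `t ≥ 0` the set `{z ∈ ℍ : τ_z > t}` is the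
unbounded component of `ℍ \ η[0,t]`. -/
structure IsTrace (W : ℝ → ℝ) (η : ℝ → ℂ) : Prop where
  cont : ContinuousOn η (Ici 0)
  mem : ∀ t, 0 ≤ t → η t ∈ cHH
  zero : η 0 = 0
  hull : ∀ t, 0 ≤ t → {z | z ∈ HH ∧ NotSwallowed W t z} = outerDom (η '' Icc 0 t)

/-- `φ` is a conformal map from `ℍ` onto `D`, extended to a homeomorphism from `closure ℍ ∪ {∞}`
onto the closure of `D`, with `φ 0 = a`, `φ ∞ = b`. -/
structure IsChart (D : Set ℂ) (a b : ℂ) (φ : ℂ → ℂ) : Prop where
  diff : DifferentiableOn ℂ φ HH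
  image : φ '' HH = D
  cont : ContinuousOn φ cHH
  inj : InjOn φ cHH
  zero : φ 0 = a
  infty : Tendsto φ (Bornology.cobounded ℂ ⊓ 𝓟 cHH) (𝓝 b)
  ne : b ∉ φ '' cHH

/-- The counterclockwise boundary arc of `D` from `a` to `b`: the image of `[0, ∞]`. -/
def posArc (φ : ℂ → ℂ) (b : ℂ) : Set ℂ := insert b (φ '' {z | z.im = 0 ∧ 0 ≤ z.re})

/-- The clockwise boundary arc of `D` from `a` to `b`: the image of `[-∞, 0]`. -/
def negArc (φ : ℂ → ℂ) (b : ℂ) : Set ℂ := insert b (φ '' {z | z.im = 0 ∧ z.re ≤ 0})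

/-- The parametrised curve `c` is `t ↦ φ (η (t / (1 - t)))` on `[0,1)`, with end point `b`. -/
def IsImage (φ : ℂ → ℂ) (b : ℂ) (η : ℝ → ℂ) (c : PCurve) : Prop :=
  (∀ t : I, (t : ℝ) < 1 → c.toC t = φ (η ((t : ℝ) / (1 - t)))) ∧ c.toC 1 = b

/-- **Chordal `SLE_κ` in `(D, a, b)`**: `μ` is the law of the image of the trace of the Loewner
chain driven by `√κ B`, `B` a standard Brownian motion, under a conformal map `φ : ℍ → D` with
`φ 0 = a`, `φ ∞ = b`, as a curve modulo reparametrisation. (For every such `φ`.) -/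
def IsSLE (κ : ℝ) (D : Set ℂ) (a b : ℂ) (μ : ProbabilityMeasure Curve) : Prop :=
  ∀ φ : ℂ → ℂ, IsChart D a b φ →
    ∃ (Ω : Type) (_ : MeasurableSpace Ω) (P : Measure Ω) (_ : IsProbabilityMeasure P)
      (B : ℝ≥0 → Ω → ℝ) (η : Ω → ℝ → ℂ) (c : Ω → PCurve),
      IsBrownianReal B P ∧
      (∀ᵐ ω ∂P, IsTrace (fun t => √κ * B t.toNNReal ω) (η ω)) ∧
      (∀ᵐ ω ∂P, IsImage φ b (η ω) (c ω)) ∧
      AEMeasurable (fun ω => Curve.mk (c ω)) P ∧
      P.map (fun ω => Curve.mk (c ω)) = μ

/-- **Q1 with the identification of the limit**: for every Jordan domain `D` and every conformal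
map `φ` of `ℍ` onto `D` with `φ 0 = a`, `φ ∞ = b` (extended to the boundary), with the wired arc
equal to the counterclockwise boundary arc from `a` to `b`, the exploration paths converge in law
to chordal `SLE₆` in `(D, a, b)`. -/
def Q1SLE : Prop :=
  ∀ (D : Set ℂ), IsJordanDomain D → ∀ (a b : ℂ), a ≠ b → ∀ φ : ℂ → ℂ, IsChart D a b φ →
    ∃ μ : ProbabilityMeasure Curve, IsSLE 6 D a b μ ∧
      ∀ A : Approx D a b (posArc φ b) (negArc φ b), Tendsto A.law atTop (𝓝 μ)

end Pool.Agent.H82.Q1
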